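import Pool.Agent.W2helper17.TP.Main2
import Pool.Agent.W2helper17.TP.Final2

/-!
# Toeplitz generation on the true polyanalytic Fock spaces (MP_3a72d9_an, Q1)

`TP.gm` is the Gaussian measure `(1/π) exp(-|z|²) dz` on `ℂ`, `TP.H = L²(ℂ, gm)`, `TP.M a` the
multiplication by the bounded Borel function `a`. `TP.IsBand A`: the distances of Borel sets
`K, L` with `M_{1_L} A M_{1_K} ≠ 0` are bounded; `TP.BDO` is the norm closure of the set of band
operators. `TP.Fock j` is the true polyanalytic Fock space `F²_(j+1)`: the `f` in `L²(ℂ, gm)` with
`f(z) = (1/j!) e^{|z|²} ∂_z^j (e^{-|z|²} g(z))` for an entire `g`. For a closed subspace `F` of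
`L²(ℂ, gm)`, `TP.toep F a` is the Toeplitz operator `g ↦ P_F (a g)` on `F` (`TP.Sp F` is `F` as a
Hilbert space), `TP.IsBandDom F T` says that `T P_F` is in `BDO`, and `TP.genC (TP.toepSet F)` is the
C*-algebra generated by all `toep F a` (the intersection of all norm closed sets of operators
containing them which are closed under sums, scalar multiples, products and adjoints).

The theorem: for every `j` the band-dominated operators on `Fock j` are exactly the C*-algebra
generated by the Toeplitz operators with bounded symbols. So the answer to Q1 is yes for all `k`.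

Idea of the proof. Let `W_w` be the Weyl operators, `k_w = W_w k_0` the normalised kernel functions.
For a character `χ` the Toeplitz operator of `χ` is `c W_ξ`, as operators commuting with all `W_w` on
`Fock j` are scalar, and `c ≠ 0` for small `ξ`; so all `W_ξ` are in the Toeplitz algebra. A
band-dominated `A` is a norm limit of ball averages of `M_{B(w,r)} A M_{B(w,r)}` over `w`, and the
compression of such an average is a norm convergent integral of the operators `T_{a_ζ} W_{-ζ}`,
`a_ζ(z) = ⟪k_z, A W_ζ k_z⟫`, over the compact set of all `|ζ| ≤ 2r`.
-/

set_option autoImplicit false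

namespace Pool.Agent.W2helper17.Old.TrueFockToeplitz

open TP

/-- For every `k = j + 1 ≥ 1`: an operator on the true polyanalytic Fock space `F²_(k)` is
band-dominated iff it is in the C*-algebra generated by the Toeplitz operators with bounded
symbols. -/
theorem result (j : ℕ) (T : Sp (Fock j) →L[ℂ] Sp (Fock j)) :
    IsBandDom (Fock j) T ↔ T ∈ genC (toepSet (Fock j)) :=
  final_iff _ (main_true j) T

end Pool.Agent.W2helper17.Old.TrueFockToeplitz
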